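import Mathlib

/-!
# Leep's estimate (C) over fields with `u_1(K) = 1`
-/

open Module

namespace Pool.Agent.Results.MP_c32625_al.QuadraticallyClosedDegree

/-- There is an anisotropic system of `r` quadratic forms in `n` variables over `K`. -/
def HasAnisotropic (K : Type*) [Field K] (r n : ℕ) : Prop :=
  ∃ q : Fin r → QuadraticForm K (Fin n → K), ∀ v : Fin n → K, (∀ i, q i v = 0) → v = 0

/-- The system `u`-invariant `u_r(K)`. -/
noncomputable def uInv (K : Type*) [Field K] (r : ℕ) : ℕ∞ :=
  ⨆ n ∈ {n : ℕ | HasAnisotropic K r n}, (n : ℕ∞)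

/-- Every binary quadratic form has a nontrivial zero. -/
def Bin (K : Type*) [Field K] : Prop :=
  ∀ q : QuadraticForm K (Fin 2 → K), ∃ v : Fin 2 → K, v ≠ 0 ∧ q v = 0

lemma bin_of_uInv {K : Type*} [Field K] (h : uInv K 1 = 1) : Bin K := by
  intro q
  by_contra hcon
  push Not at hcon
  have h2 : HasAnisotropic K 1 2 := by
    refine ⟨fun _ => q, fun v hv => ?_⟩
    by_contra hv0
    exact hcon v hv0 (hv 0)
  have : ((2 : ℕ) : ℕ∞) ≤ uInv K 1 := by
    unfold uInv
    exact le_iSup₂_of_le 2 h2 le_rfl
  rw [h] at this
  norm_num at this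

/-- the binary form `a s² + b s t + c t²` -/
lemma bin_abc {K : Type*} [Field K] (h : Bin K) (a b c : K) :
    ∃ s t : K, (s ≠ 0 ∨ t ≠ 0) ∧ a * (s * s) + b * (s * t) + c * (t * t) = 0 := by
  let p0 : (Fin 2 → K) →ₗ[K] K := LinearMap.proj 0
  let p1 : (Fin 2 → K) →ₗ[K] K := LinearMap.proj 1
  let q : QuadraticForm K (Fin 2 → K) :=
    a • QuadraticMap.linMulLin p0 p0 + b • QuadraticMap.linMulLin p0 p1 +
      c • QuadraticMap.linMulLin p1 p1
  obtain ⟨v, hv, hq⟩ := h q
  refine ⟨v 0, v 1, ?_, ?_⟩
  · by_contra hcon
    push Not at hcon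
    apply hv
    funext i
    fin_cases i
    · exact hcon.1
    · exact hcon.2
  · simpa [q, p0, p1] using hq

lemma sq_surj {K : Type*} [Field K] (h : Bin K) (c : K) : ∃ s : K, s * s = c := by
  obtain ⟨s, t, hst, he⟩ := bin_abc h 1 0 (-c)
  have ht : t ≠ 0 := by
    rintro rfl
    rcases hst with h1 | h1
    · simp at he
      exact h1 he
    · exact h1 rfl
  refine ⟨s / t, ?_⟩
  field_simp
  linear_combination he

/-- **Leep's bound (B) in the case `u_1(K) = 1`**: `r` quadratic forms have a common nontrivial
zero as soon as the dimension exceeds `r (r + 1) / 2`. -/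
theorem leep {K : Type*} [Field K] (h : Bin K) : ∀ (r : ℕ) (V : Type*) [AddCommGroup V]
    [Module K V] [FiniteDimensional K V] (q : ℕ → QuadraticForm K V),
    r * (r + 1) < 2 * finrank K V → ∃ v : V, v ≠ 0 ∧ ∀ i < r, q i v = 0 := by
  intro r
  induction r with
  | zero =>
    intro V _ _ _ q hV
    have hpos : 0 < finrank K V := by omega
    have := Module.finrank_pos_iff.1 hpos
    obtain ⟨v, hv⟩ := exists_ne (0 : V)
    exact ⟨v, hv, fun i hi => absurd hi (by omega)⟩
  | succ r ih =>
    intro V _ _ _ q hV
    obtain ⟨v, hv, hqv⟩ := ih V q (by nlinarith)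
    -- a linear functional with value one at `v`
    obtain ⟨ℓ, hℓ⟩ := Module.Projective.exists_dual_ne_zero K hv
    let T : V →ₗ[K] (Fin (r + 1) → K) :=
      LinearMap.pi fun i => if (i : ℕ) < r then (q i).polarBilin v else ℓ
    have hker : finrank K V ≤ finrank K (LinearMap.ker T) + (r + 1) := by
      have h1 := LinearMap.finrank_range_add_finrank_ker T
      have h2 : finrank K (LinearMap.range T) ≤ r + 1 := by
        have := Submodule.finrank_le (LinearMap.range T)
        simpa using this
      omega
    obtain ⟨w, hw, hqw⟩ := ih (LinearMap.ker T) (fun i => (q i).comp (LinearMap.ker T).subtype)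
      (by nlinarith)
    have hwT : T (w : V) = 0 := w.2
    have hpol : ∀ i < r, QuadraticMap.polar (q i) v w = 0 := by
      intro i hi
      have := congrFun hwT ⟨i, by omega⟩
      simpa [T, hi] using this
    have hlw : ℓ (w : V) = 0 := by
      have := congrFun hwT ⟨r, by omega⟩
      simpa [T] using this
    have hw' : (w : V) ≠ 0 := by simpa using hw
    obtain ⟨s, t, hst, he⟩ := bin_abc h (q r v) (QuadraticMap.polar (q r) v w) (q r w)
    have hexp : ∀ i, q i (s • v + t • (w : V)) =
        q i v * (s * s) + QuadraticMap.polar (q i) v w * (s * t) + q i w * (t * t) := by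
      intro i
      rw [QuadraticMap.map_add (⇑(q i)), QuadraticMap.map_smul, QuadraticMap.map_smul,
        QuadraticMap.polar_smul_left, QuadraticMap.polar_smul_right]
      simp only [smul_eq_mul]
      ring
    refine ⟨s • v + t • (w : V), ?_, ?_⟩
    · intro h0
      have h1 : s * ℓ v = 0 := by
        have := congrArg ℓ h0
        simpa [hlw] using this
      have hs : s = 0 := by
        rcases mul_eq_zero.1 h1 with h2 | h2
        · exact h2
        · exact absurd h2 hℓ
      have ht : t ≠ 0 := by
        rcases hst with h2 | h2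
        · exact absurd hs h2
        · exact h2
      rw [hs, zero_smul, zero_add] at h0
      rcases smul_eq_zero.1 h0 with h2 | h2
      · exact ht h2
      · exact hw' h2
    · intro i hi
      rw [hexp]
      rcases Nat.lt_succ_iff_lt_or_eq.1 hi with h1 | h1
      · have h2 : q i (w : V) = 0 := by simpa using hqw i h1
        rw [hqv i h1, hpol i h1, h2]
        ring
      · subst h1
        exact he


/-! ### The extension -/

section ext

variable {K L : Type*} [Field K] [Field L] [Algebra K L] [FiniteDimensional K L]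

/-- the values of an `L`-form on a large `K`-subspace meet every `K`-subspace of `L` -/
lemma meet (h : Bin K) {V : Type*} [AddCommGroup V] [Module K V] [Module L V]
    [IsScalarTower K L V] [FiniteDimensional K V] (φ : QuadraticForm L V)
    (S : Submodule K L) (C : Submodule K V)
    (hc : (finrank K L - finrank K S) * (finrank K L - finrank K S + 1) < 2 * finrank K C) :
    ∃ v ∈ C, v ≠ 0 ∧ φ v ∈ S := by
  classical
  have hq : finrank K (L ⧸ S) = finrank K L - finrank K S := by
    have := Submodule.finrank_quotient_add_finrank S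
    omega
  let b := Module.finBasis K (L ⧸ S)
  let ψ : QuadraticMap K C L := (φ.restrictScalars (S := K)).comp C.subtype
  let q : ℕ → QuadraticForm K C := fun i =>
    if hi : i < finrank K (L ⧸ S) then
      ((b.coord ⟨i, hi⟩).comp S.mkQ).compQuadraticMap ψ
    else 0
  obtain ⟨v, hv, hqv⟩ := leep h (finrank K (L ⧸ S)) C q (by
    rw [hq]
    exact hc)
  refine ⟨v, v.2, by simpa using hv, ?_⟩
  have : S.mkQ (φ v) = 0 := by
    apply b.ext_elem
    intro i
    have h1 := hqv i i.2
    simp only [q, i.2, dif_pos] at h1
    simpa [ψ] using h1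
  simpa using this

/-- `1, x, x²` are linearly independent over `K` if `x ∉ K`. -/
lemma indep (h : Bin K) (x : L) (hx : ∀ k : K, algebraMap K L k ≠ x) :
    LinearIndependent K ![(1 : L), x, x * x] := by
  rw [Fintype.linearIndependent_iff]
  intro g hg
  rw [Fin.sum_univ_three] at hg
  simp only [Matrix.cons_val_zero, Matrix.cons_val_one, Matrix.cons_val_two, Matrix.head_cons,
    Matrix.tail_cons, Matrix.cons_val] at hg
  have hg' : algebraMap K L (g 0) + algebraMap K L (g 1) * x + algebraMap K L (g 2) * (x * x) = 0 := by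
    rw [Algebra.smul_def, Algebra.smul_def, Algebra.smul_def, mul_one] at hg
    exact hg
  have h2 : g 2 = 0 := by
    by_contra h2
    obtain ⟨s, t, hst, he⟩ := bin_abc h (g 2) (g 1) (g 0)
    have ht : t ≠ 0 := by
      rintro rfl
      have : g 2 * (s * s) = 0 := by simpa using he
      rcases mul_eq_zero.1 this with h3 | h3
      · exact h2 h3
      · rcases hst with h4 | h4
        · exact h4 (mul_self_eq_zero.1 h3)
        · exact h4 rfl
    -- the root `ρ`
    set ρ := s / t with hρ
    have hroot : g 2 * (ρ * ρ) + g 1 * ρ + g 0 = 0 := by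
      rw [hρ]
      field_simp
      linear_combination he
    have hroot' : algebraMap K L (g 2) * (algebraMap K L ρ * algebraMap K L ρ) +
        algebraMap K L (g 1) * algebraMap K L ρ + algebraMap K L (g 0) = 0 := by
      have := congrArg (algebraMap K L) hroot
      simpa using this
    have hfac : (x - algebraMap K L ρ) *
        (algebraMap K L (g 2) * x + algebraMap K L (g 1 + g 2 * ρ)) = 0 := by
      rw [map_add, map_mul]
      linear_combination hg' - hroot'
    rcases mul_eq_zero.1 hfac with h3 | h3
    · exact hx ρ (sub_eq_zero.1 h3).symm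
    · have h2' : algebraMap K L (g 2) ≠ 0 := by simpa using h2
      apply hx (-(g 1 + g 2 * ρ) / g 2)
      rw [map_div₀, map_neg, div_eq_iff h2']
      linear_combination -h3
  rw [h2, map_zero, zero_mul, add_zero] at hg'
  have h1 : g 1 = 0 := by
    by_contra h1
    have h1' : algebraMap K L (g 1) ≠ 0 := by simpa using h1
    apply hx (-(g 0) / g 1)
    rw [map_div₀, map_neg, div_eq_iff h1']
    linear_combination -hg'
  rw [h1, map_zero, zero_mul, add_zero] at hg'
  have h0 : g 0 = 0 := by simpa using hg'
  intro i
  fin_cases i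
  · exact h0
  · exact h1
  · exact h2

/-- a two-dimensional form `⟨y, y z⟩` with `z ∉ K` represents all of `y (K + K z + K z²)` -/
lemma rep (h : Bin K) (z : L) (c : Fin 3 → K) : ∃ p₀ p₁ q : K,
    (algebraMap K L p₀ + algebraMap K L p₁ * z) * (algebraMap K L p₀ + algebraMap K L p₁ * z) +
      algebraMap K L q * algebraMap K L q * z =
    -(algebraMap K L (c 0) + algebraMap K L (c 1) * z + algebraMap K L (c 2) * (z * z)) := by
  obtain ⟨s, hs⟩ := sq_surj h (-c 0)
  obtain ⟨t, ht⟩ := sq_surj h (-c 2)
  obtain ⟨b, hb⟩ := sq_surj h (-c 1 - 2 * (s * t))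
  have hs' : algebraMap K L s * algebraMap K L s = -algebraMap K L (c 0) := by
    rw [← map_mul, hs, map_neg]
  have ht' : algebraMap K L t * algebraMap K L t = -algebraMap K L (c 2) := by
    rw [← map_mul, ht, map_neg]
  have hb' : algebraMap K L b * algebraMap K L b =
      -algebraMap K L (c 1) - 2 * (algebraMap K L s * algebraMap K L t) := by
    rw [← map_mul, hb, map_sub, map_neg, map_mul, map_mul, map_ofNat]
  exact ⟨s, t, b, by linear_combination hs' + z * z * ht' + z * hb'⟩

/-- The induction (characteristic not two).  For an anisotropic form `φ` over `L` and `2 k ≤ dim φ`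
there are a `K`-subspace `S` of `L` of dimension `3 k` and a large `K`-subspace `C` of the space of
`φ` on which `φ` takes no value in `S` (except trivially). -/
lemma blocks (h : Bin K) (h2 : (2 : L) ≠ 0) {V : Type*} [AddCommGroup V] [Module K V] [Module L V]
    [IsScalarTower K L V] [FiniteDimensional L V] [FiniteDimensional K V] (φ : QuadraticForm L V)
    (han : ∀ v, φ v = 0 → v = 0) : ∀ k : ℕ, 2 * k ≤ finrank L V →
    ∃ (S : Submodule K L) (C : Submodule K V) (D : Submodule L V),
      finrank K S = 3 * k ∧
      2 * (finrank K L * finrank L V) + 3 * (k * k) ≤ 2 * finrank K C + 4 * (finrank K L * k) + 3 * k ∧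
      finrank L V ≤ finrank L D + 2 * k ∧ (∀ v ∈ D, v ∈ C) ∧
      ∀ v ∈ C, φ v ∈ S → v = 0 := by
  classical
  intro k
  induction k with
  | zero =>
    intro _
    refine ⟨⊥, ⊤, ⊤, by simp, ?_, by simp, by simp, ?_⟩
    · rw [finrank_top, Module.finrank_mul_finrank]; omega
    · intro v _ hv
      exact han v (by simpa using hv)
  | succ k ih =>
    intro hk
    obtain ⟨S, C, D, hS, hC, hD, hDC, hav⟩ := ih (by omega)
    -- the vector `e`
    have hD2 : 2 ≤ finrank L D := by omega
    have hDpos : 0 < finrank L D := by omega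
    have := Module.finrank_pos_iff.1 hDpos
    obtain ⟨e', he'⟩ := exists_ne (0 : D)
    set e : V := (e' : V) with hedef
    have heD : e ∈ D := e'.2
    have he0 : e ≠ 0 := by simpa [hedef] using he'
    set y := φ e with hy
    have hy0 : y ≠ 0 := fun h0 => he0 (han e h0)
    have hpe : QuadraticMap.polar φ e e = 2 * y := by
      rw [QuadraticMap.polar_self]; simp [hy]
    -- the vector `f`
    obtain ⟨f, hfD, hf0, hef⟩ : ∃ f ∈ D, f ≠ 0 ∧ QuadraticMap.polar φ e f = 0 := by
      let T : D →ₗ[L] L := (φ.polarBilin e).comp D.subtype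
      have h1 := LinearMap.finrank_range_add_finrank_ker T
      have h3 : finrank L (LinearMap.range T) ≤ 1 := by
        have := Submodule.finrank_le (LinearMap.range T)
        simpa using this
      have h4 : 0 < finrank L (LinearMap.ker T) := by omega
      have := Module.finrank_pos_iff.1 h4
      obtain ⟨f, hf⟩ := exists_ne (0 : LinearMap.ker T)
      have hf2 : T f = 0 := LinearMap.mem_ker.1 f.2
      exact ⟨(f : D), (f : D).2, by simpa using hf, hf2⟩
    have hfe : QuadraticMap.polar φ f e = 0 := by rw [QuadraticMap.polar_comm]; exact hef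
    obtain ⟨z, hz⟩ : ∃ z, φ f = y * z := ⟨y⁻¹ * φ f, by field_simp⟩
    have hyz0 : y * z ≠ 0 := by rw [← hz]; exact fun h0 => hf0 (han f h0)
    have hz0 : z ≠ 0 := right_ne_zero_of_mul hyz0
    have hpf : QuadraticMap.polar φ f f = 2 * (y * z) := by
      rw [QuadraticMap.polar_self]; simp [hz]
    have hexp : ∀ (s t : L), φ (s • e + t • f) = (s * s + t * t * z) * y := by
      intro s t
      rw [QuadraticMap.map_add (⇑φ), QuadraticMap.map_smul,
        QuadraticMap.map_smul, QuadraticMap.polar_smul_left, QuadraticMap.polar_smul_right,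
        hef, hz, ← hy]
      simp only [smul_eq_mul, mul_zero, add_zero]
      ring
    have hnz : ∀ s t : L, s • e + t • f = 0 → s = 0 ∧ t = 0 := by
      intro s t h0
      constructor
      · have := congrArg (fun v => QuadraticMap.polar φ e v) h0
        have h3 : s * (2 * y) = 0 := by
          simpa [QuadraticMap.polar_add_right, QuadraticMap.polar_smul_right, hpe, hef] using this
        rcases mul_eq_zero.1 h3 with h4 | h4
        · exact h4
        · exact absurd h4 (mul_ne_zero h2 hy0)
      · have := congrArg (fun v => QuadraticMap.polar φ f v) h0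
        have h3 : t * (2 * (y * z)) = 0 := by
          simpa [QuadraticMap.polar_add_right, QuadraticMap.polar_smul_right, hpf, hfe] using this
        rcases mul_eq_zero.1 h3 with h4 | h4
        · exact h4
        · exact absurd h4 (mul_ne_zero h2 hyz0)
    -- `z` is not in `K`
    have hzK : ∀ k : K, algebraMap K L k ≠ z := by
      intro k hk
      obtain ⟨s, t, hst, hz1⟩ := bin_abc h 1 0 k
      have h3 : φ (algebraMap K L s • e + algebraMap K L t • f) = 0 := by
        rw [hexp, ← hk]
        have h4 := congrArg (algebraMap K L) hz1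
        simp only [map_add, map_mul, map_one, map_zero, one_mul, zero_mul, add_zero] at h4
        linear_combination y * h4
      obtain ⟨h5, h6⟩ := hnz _ _ (han _ h3)
      rcases hst with h8 | h8
      · exact h8 (by simpa using h5)
      · exact h8 (by simpa using h6)
    -- the subspace `y (K + K z + K z²)`
    have hind0 := indep h z hzK
    have hind : LinearIndependent K ![y, y * z, y * (z * z)] := by
      have := hind0.map' (LinearMap.mulLeft K y) (by
        rw [LinearMap.ker_eq_bot]
        exact mul_right_injective₀ hy0)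
      have e1 : (⇑(LinearMap.mulLeft K y) ∘ ![1, z, z * z]) = ![y, y * z, y * (z * z)] := by
        funext i
        fin_cases i <;> simp
      rw [e1] at this
      exact this
    let S₁ : Submodule K L := Submodule.span K (Set.range ![y, y * z, y * (z * z)])
    have hS₁ : finrank K S₁ = 3 := by
      have := finrank_span_eq_card hind
      simpa [S₁] using this
    have hmem : ∀ s ∈ S₁, ∃ p₀ p₁ q : K, φ ((algebraMap K L p₀ + algebraMap K L p₁ * z) • e +
        algebraMap K L q • f) = -s ∧
        (algebraMap K L p₀ + algebraMap K L p₁ * z) * y ∈ S₁ ∧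
        algebraMap K L q * (y * z) ∈ S₁ := by
      intro s hs
      obtain ⟨c, hc⟩ := (Submodule.mem_span_range_iff_exists_fun K).1 hs
      rw [Fin.sum_univ_three] at hc
      simp only [Matrix.cons_val_zero, Matrix.cons_val_one, Matrix.cons_val_two, Matrix.head_cons,
        Matrix.tail_cons, Matrix.cons_val] at hc
      rw [Algebra.smul_def, Algebra.smul_def, Algebra.smul_def] at hc
      obtain ⟨p₀, p₁, q, hpq⟩ := rep h z c
      refine ⟨p₀, p₁, q, ?_, ?_, ?_⟩
      · rw [hexp, hpq, ← hc]; ring
      · refine (Submodule.mem_span_range_iff_exists_fun K).2 ⟨![p₀, p₁, 0], ?_⟩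
        rw [Fin.sum_univ_three]
        simp [Algebra.smul_def]
        ring
      · refine (Submodule.mem_span_range_iff_exists_fun K).2 ⟨![0, q, 0], ?_⟩
        rw [Fin.sum_univ_three]
        simp [Algebra.smul_def]
    have hND : ∀ s t : L, s • e + t • f ∈ C := fun s t =>
      hDC _ (D.add_mem (D.smul_mem s heD) (D.smul_mem t hfD))
    have hdisj : Disjoint S S₁ := by
      rw [Submodule.disjoint_def]
      intro s hsS hsS₁
      obtain ⟨p₀, p₁, q, hp, _⟩ := hmem s hsS₁
      have h3 := hav _ (hND _ _) (by rw [hp]; exact S.neg_mem hsS)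
      rw [h3, QuadraticMap.map_zero] at hp
      exact neg_eq_zero.1 hp.symm
    have hS' : finrank K (S ⊔ S₁ : Submodule K L) = 3 * (k + 1) := by
      have h3 := Submodule.finrank_sup_add_finrank_inf_eq S S₁
      rw [hdisj.eq_bot, finrank_bot, hS, hS₁] at h3
      omega
    -- the new spaces
    let pe : V →ₗ[K] L := (φ.polarBilin e).restrictScalars K
    let pf : V →ₗ[K] L := (φ.polarBilin f).restrictScalars K
    let T : C →ₗ[K] L × (L ⧸ S) := (pe.comp C.subtype).prod ((S.mkQ.comp pf).comp C.subtype)
    let C' : Submodule K V := (LinearMap.ker T).map C.subtype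
    have hC' : ∀ v, v ∈ C' ↔ v ∈ C ∧ QuadraticMap.polar φ e v = 0 ∧
        QuadraticMap.polar φ f v ∈ S := by
      intro v
      simp only [C', Submodule.mem_map, LinearMap.mem_ker]
      constructor
      · rintro ⟨w, hw, rfl⟩
        have h3 : pe w = 0 ∧ S.mkQ (pf w) = 0 := by simpa [T] using hw
        refine ⟨w.2, h3.1, ?_⟩
        have := h3.2
        rwa [Submodule.mkQ_apply, Submodule.Quotient.mk_eq_zero] at this
      · rintro ⟨h3, h4, h5⟩
        refine ⟨⟨v, h3⟩, ?_, rfl⟩
        have h6 : pe v = 0 := h4
        have h7 : S.mkQ (pf v) = 0 := by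
          rw [Submodule.mkQ_apply, Submodule.Quotient.mk_eq_zero]; exact h5
        have h8 : T ⟨v, h3⟩ = (pe v, S.mkQ (pf v)) := rfl
        rw [h8, h6, h7]
        rfl
    have hfC' : finrank K C ≤ finrank K C' + (finrank K L + (finrank K L - 3 * k)) := by
      have h3 := LinearMap.finrank_range_add_finrank_ker T
      have h4 : finrank K (LinearMap.range T) ≤ finrank K L + (finrank K L - 3 * k) := by
        have := Submodule.finrank_le (LinearMap.range T)
        rw [Module.finrank_prod] at this
        have h5 := Submodule.finrank_quotient_add_finrank S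
        omega
      have h5 : finrank K C' = finrank K (LinearMap.ker T) :=
        Submodule.finrank_map_subtype_eq _ _
      omega
    let D' : Submodule L V := D ⊓ LinearMap.ker ((φ.polarBilin e).prod (φ.polarBilin f))
    have hD'mem : ∀ v ∈ D', v ∈ D ∧ QuadraticMap.polar φ e v = 0 ∧ QuadraticMap.polar φ f v = 0 := by
      intro v hv
      have h3 : ((φ.polarBilin e).prod (φ.polarBilin f)) v = 0 := LinearMap.mem_ker.1 hv.2
      refine ⟨hv.1, ?_, ?_⟩
      · exact (Prod.mk.inj h3).1
      · exact (Prod.mk.inj h3).2
    have hfD' : finrank L D ≤ finrank L D' + 2 := by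
      let T' : D →ₗ[L] L × L := ((φ.polarBilin e).prod (φ.polarBilin f)).comp D.subtype
      have h3 := LinearMap.finrank_range_add_finrank_ker T'
      have h4 : finrank L (LinearMap.range T') ≤ 2 := by
        have := Submodule.finrank_le (LinearMap.range T')
        simpa using this
      have h5 : finrank L (LinearMap.ker T') ≤ finrank L D' := by
        have h6 : finrank L ((LinearMap.ker T').map D.subtype) = finrank L (LinearMap.ker T') :=
          Submodule.finrank_map_subtype_eq _ _
        rw [← h6]
        apply Submodule.finrank_mono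
        rintro _ ⟨w, hw, rfl⟩
        exact ⟨w.2, by simpa [T'] using hw⟩
      omega
    have h3k : 3 * k + 3 ≤ finrank K L := by
      have := Submodule.finrank_le (S ⊔ S₁ : Submodule K L)
      omega
    refine ⟨S ⊔ S₁, C', D', hS', ?_, by omega, ?_, ?_⟩
    · obtain ⟨c, hc⟩ : ∃ c, finrank K L = c + 3 * k := ⟨finrank K L - 3 * k, by omega⟩
      rw [hc] at hfC' hC ⊢
      simp only [Nat.add_sub_cancel] at hfC'
      nlinarith
    · intro v hv
      obtain ⟨h3, h4, h5⟩ := hD'mem v hv
      exact (hC' v).2 ⟨hDC v h3, h4, by rw [h5]; exact S.zero_mem⟩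
    · intro v hv hvS
      obtain ⟨h3, h4, h5⟩ := (hC' v).1 hv
      obtain ⟨s, hs, s₁, hs₁, hsum⟩ := Submodule.mem_sup.1 hvS
      obtain ⟨p₀, p₁, q, hp, hp1, hp2⟩ := hmem s₁ hs₁
      set n := (algebraMap K L p₀ + algebraMap K L p₁ * z) • e + algebraMap K L q • f with hn
      have h6 : v + n ∈ C := C.add_mem h3 (hND _ _)
      have h7 : φ (v + n) ∈ S := by
        rw [QuadraticMap.map_add (⇑φ), hp, ← hsum, hn, QuadraticMap.polar_add_right,
          QuadraticMap.polar_smul_right, QuadraticMap.polar_smul_right,
          QuadraticMap.polar_comm (⇑φ) v e, QuadraticMap.polar_comm (⇑φ) v f, h4, smul_zero,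
          zero_add]
        have h8 : algebraMap K L q • QuadraticMap.polar φ f v ∈ S := by
          rw [smul_eq_mul, ← Algebra.smul_def]
          exact S.smul_mem _ h5
        have h9 : s + s₁ + -s₁ = s := by ring
        rw [h9]
        exact S.add_mem hs h8
      have h8 := hav _ h6 h7
      have h9 : v = -n := eq_neg_of_add_eq_zero_left h8
      -- `n = 0`
      have hpen : QuadraticMap.polar φ e n =
          (algebraMap K L p₀ + algebraMap K L p₁ * z) * (2 * y) := by
        rw [hn, QuadraticMap.polar_add_right, QuadraticMap.polar_smul_right,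
          QuadraticMap.polar_smul_right, hpe, hef]
        simp
      have hpfn : QuadraticMap.polar φ f n = algebraMap K L q * (2 * (y * z)) := by
        rw [hn, QuadraticMap.polar_add_right, QuadraticMap.polar_smul_right,
          QuadraticMap.polar_smul_right, hpf, hfe]
        simp
      have h10 : algebraMap K L p₀ + algebraMap K L p₁ * z = 0 := by
        rw [h9, QuadraticMap.polar_neg_right, hpen, neg_eq_zero] at h4
        rcases mul_eq_zero.1 h4 with h11 | h11
        · exact h11
        · exact absurd h11 (mul_ne_zero h2 hy0)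
      have h11 : algebraMap K L q = 0 := by
        rw [h9, QuadraticMap.polar_neg_right, hpfn] at h5
        have h12 : algebraMap K L q * (2 * (y * z)) ∈ S := by simpa using S.neg_mem h5
        have h13 : algebraMap K L q * (2 * (y * z)) ∈ S₁ := by
          have : algebraMap K L q * (2 * (y * z)) =
              algebraMap K L q * (y * z) + algebraMap K L q * (y * z) := by ring
          rw [this]
          exact S₁.add_mem hp2 hp2
        have h14 := (Submodule.disjoint_def.1 hdisj) _ h12 h13
        rcases mul_eq_zero.1 h14 with h15 | h15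
        · exact h15
        · exact absurd h15 (mul_ne_zero h2 hyz0)
      rw [h9, hn, h10, h11]
      simp

/-- In characteristic two, every form of dimension at least three over `L` is isotropic. -/
lemma char_two (h : Bin K) (h2 : (2 : L) = 0) {V : Type*} [AddCommGroup V] [Module L V]
    [FiniteDimensional L V] (φ : QuadraticForm L V) (hn : 3 ≤ finrank L V)
    (han : ∀ v, φ v = 0 → v = 0) : False := by
  classical
  have h2K : (2 : K) = 0 := by
    have : algebraMap K L 2 = 0 := by rw [map_ofNat]; exact h2
    simpa using this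
  haveI : CharP L 2 := CharTwo.of_one_ne_zero_of_two_eq_zero one_ne_zero h2
  haveI : CharP K 2 := CharTwo.of_one_ne_zero_of_two_eq_zero one_ne_zero h2K
  haveI : ExpChar K 2 := ExpChar.prime Nat.prime_two
  haveI : ExpChar L 2 := ExpChar.prime Nat.prime_two
  haveI : PerfectRing K 2 := PerfectRing.ofSurjective K 2 (by
    intro c
    obtain ⟨s, hs⟩ := sq_surj h c
    exact ⟨s, by rw [frobenius_def, pow_two, hs]⟩)
  haveI : PerfectField K := PerfectRing.toPerfectField K 2
  haveI : PerfectField L := Algebra.IsAlgebraic.perfectField K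
  have hsq : ∀ c : L, ∃ s : L, s * s = c := by
    intro c
    obtain ⟨s, hs⟩ := PerfectRing.bijective_frobenius (R := L) (p := 2) |>.2 c
    exact ⟨s, by rw [← hs]; exact (pow_two s).symm⟩
  -- three independent vectors
  obtain ⟨w, hw⟩ : ∃ w : Fin 3 → V, LinearIndependent L w :=
    exists_linearIndependent_of_le_finrank hn
  have hw0 : ∀ i, w i ≠ 0 := fun i => hw.ne_zero i
  set a := QuadraticMap.polar φ (w 1) (w 2) with ha
  set b := QuadraticMap.polar φ (w 0) (w 2) with hb
  set c := QuadraticMap.polar φ (w 0) (w 1) with hc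
  have hneg : ∀ y : L, -y = y := fun y => CharTwo.neg_eq y
  have hself : ∀ v, QuadraticMap.polar φ v v = 0 := by
    intro v
    rw [QuadraticMap.polar_self]
    simp [h2]
  by_cases habc : a = 0 ∧ b = 0 ∧ c = 0
  · -- totally singular
    obtain ⟨s, hs⟩ := hsq (φ (w 1) / φ (w 0))
    have hq0 : φ (w 0) ≠ 0 := fun h0 => hw0 0 (han _ h0)
    have hz : φ (s • w 0 + w 1) = 0 := by
      rw [QuadraticMap.map_add (⇑φ), QuadraticMap.map_smul, QuadraticMap.polar_smul_left, ← hc,
        habc.2.2, hs]
      simp only [smul_eq_mul, mul_zero, add_zero]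
      rw [div_mul_cancel₀ _ hq0]
      exact CharTwo.add_self_eq_zero _
    have h0 := han _ hz
    rw [Fintype.linearIndependent_iff] at hw
    have := hw ![s, 1, 0] (by
      rw [Fin.sum_univ_three]
      simpa using h0) 1
    simp at this
  · set r : V := a • w 0 + b • w 1 + c • w 2 with hr
    have hr0 : r ≠ 0 := by
      intro h0
      rw [Fintype.linearIndependent_iff] at hw
      have := hw ![a, b, c] (by
        rw [Fin.sum_univ_three]
        simpa using h0)
      exact habc ⟨by simpa using this 0, by simpa using this 1, by simpa using this 2⟩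
    have hpr : ∀ v, QuadraticMap.polar φ r v = a * QuadraticMap.polar φ (w 0) v +
        b * QuadraticMap.polar φ (w 1) v + c * QuadraticMap.polar φ (w 2) v := by
      intro v
      rw [hr, QuadraticMap.polar_add_left, QuadraticMap.polar_add_left,
        QuadraticMap.polar_smul_left, QuadraticMap.polar_smul_left, QuadraticMap.polar_smul_left]
      simp only [smul_eq_mul]
    have hp : ∀ i, QuadraticMap.polar φ r (w i) = 0 := by
      intro i
      rw [hpr]
      fin_cases i
      · simp only [Fin.zero_eta]
        rw [hself, QuadraticMap.polar_comm (⇑φ) (w 1) (w 0), QuadraticMap.polar_comm (⇑φ) (w 2) (w 0),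
          ← hc, ← hb]
        linear_combination (b * c) * h2
      · simp only [Fin.mk_one]
        rw [hself, QuadraticMap.polar_comm (⇑φ) (w 2) (w 1), ← hc, ← ha]
        linear_combination (a * c) * h2
      · simp only [Fin.reduceFinMk]
        rw [hself, ← hb, ← ha]
        linear_combination (a * b) * h2
    have hqr : φ r ≠ 0 := fun h0 => hr0 (han _ h0)
    -- a basis vector which is not a multiple of `r`
    have key : ∀ i, ∃ s : L, s • r + w i = 0 := by
      intro i
      obtain ⟨s, hs⟩ := hsq (φ (w i) / φ r)
      refine ⟨s, han _ ?_⟩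
      rw [QuadraticMap.map_add (⇑φ), QuadraticMap.map_smul, QuadraticMap.polar_smul_left, hp, hs]
      simp only [smul_eq_mul, mul_zero, add_zero]
      rw [div_mul_cancel₀ _ hqr]
      exact CharTwo.add_self_eq_zero _
    obtain ⟨s, hs⟩ := key 0
    obtain ⟨t, ht⟩ := key 1
    rw [Fintype.linearIndependent_iff] at hw
    have hs0 : s ≠ 0 := by
      rintro rfl
      rw [zero_smul, zero_add] at hs
      exact hw0 0 hs
    have h3 : t • w 0 + (-s) • w 1 + (0 : L) • w 2 = 0 := by
      have e1 : w 0 = -(s • r) := by rw [← sub_eq_zero, sub_neg_eq_add, add_comm]; exact hs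
      have e2 : w 1 = -(t • r) := by rw [← sub_eq_zero, sub_neg_eq_add, add_comm]; exact ht
      rw [zero_smul, add_zero, e1, e2, smul_neg, smul_neg, neg_smul, neg_neg, smul_smul, smul_smul,
        mul_comm]
      exact neg_add_cancel _
    have := hw ![t, -s, 0] (by
      rw [Fin.sum_univ_three]
      simpa using h3) 1
    simp at this
    exact hs0 this

end ext

/-- The bound, for every number `k` of blocks with `2 k ≤ n`. -/
lemma bound (K L : Type*) [Field K] [Field L] [Algebra K L] [FiniteDimensional K L]
    (h : Bin K) (n : ℕ) (hn : HasAnisotropic L 1 n) (k : ℕ) (hk : 2 * k ≤ n) :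
    2 * (finrank K L * n) + 2 * (finrank K L * k) ≤
      finrank K L ^ 2 + finrank K L + 6 * k ^ 2 := by
  obtain ⟨q, hq⟩ := hn
  have han : ∀ v, q 0 v = 0 → v = 0 := fun v hv => hq v fun i => by
    rw [Subsingleton.elim i 0]; exact hv
  have hd : 0 < finrank K L := finrank_pos
  have hfin : finrank L (Fin n → L) = n := by simp
  have hfinK : finrank K (Fin n → L) = finrank K L * n := by
    rw [← Module.finrank_mul_finrank K L (Fin n → L), hfin]
  by_cases h2 : (2 : L) = 0
  · have hn2 : n ≤ 2 := by
      by_contra hcon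
      exact char_two h h2 (q 0) (by rw [hfin]; omega) han
    -- Leep's bound
    have hL : 2 * (finrank K L * n) ≤ finrank K L * (finrank K L + 1) := by
      by_contra hcon
      push Not at hcon
      obtain ⟨v, _, hv0, hv⟩ := meet h (q 0) (⊥ : Submodule K L) (⊤ : Submodule K (Fin n → L)) (by
        rw [finrank_bot, finrank_top, hfinK, Nat.sub_zero]
        exact hcon)
      exact hv0 (han v (by simpa using hv))
    rcases Nat.eq_zero_or_pos k with hk0 | hk0
    · subst hk0
      nlinarith
    · have hk1 : k = 1 := by omega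
      have hn' : n = 2 := by omega
      subst hk1 hn'
      have : (finrank K L : ℤ) ^ 2 - 5 * finrank K L + 6 ≥ 0 := by
        have h1 : ((finrank K L : ℤ) - 2) * (finrank K L - 3) ≥ 0 := by
          rcases lt_or_ge (finrank K L : ℤ) 3 with h3 | h3
          · have h4 : (finrank K L : ℤ) ≤ 2 := by omega
            nlinarith
          · nlinarith
        nlinarith
      zify
      nlinarith
  · obtain ⟨S, C, D, hS, hC, _, _, hav⟩ := blocks h h2 (q 0) han k (by rw [hfin]; exact hk)
    rw [hfin] at hC
    have h3k : 3 * k ≤ finrank K L := by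
      rw [← hS]
      exact Submodule.finrank_le S
    by_contra hcon
    push Not at hcon
    obtain ⟨v, hv, hv0, hvS⟩ := meet h (q 0) S C (by
      rw [hS]
      obtain ⟨c, hc⟩ : ∃ c, finrank K L = c + 3 * k := ⟨finrank K L - 3 * k, by omega⟩
      rw [hc] at hcon hC ⊢
      simp only [Nat.add_sub_cancel]
      nlinarith)
    exact hv0 (hav v hv hvS)

/-- **Leep's estimate (C) is not sharp in any degree `d ≥ 4` when `u_1(K) = 1`.**  Let `K` be a
field with `u_1(K) = 1` and `L / K` a field extension of finite degree `d`.  Then `u_1(L)` is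
finite, `u_1(L) ≤ (d + 1) / 2 - k + 3 k² / d` for every natural number `k ≤ u_1(L) / 2`, and
consequently `u_1(L) ≤ 5 d / 12 + 1 / 2 + 3 / (4 d)`.  In particular
`u_1(L) < (d + 1) / 2 · u_1(K)` for every `d ≥ 4`. -/
theorem result (K L : Type*) [Field K] [Field L] [Algebra K L] [FiniteDimensional K L]
    (hu : uInv K 1 = 1) :
    (4 ≤ finrank K L → 2 * uInv L 1 < (finrank K L + 1) * uInv K 1) ∧
    ∃ n : ℕ, uInv L 1 = n ∧ 12 * (finrank K L * n) ≤ 5 * finrank K L ^ 2 + 6 * finrank K L + 9 ∧
      ∀ k : ℕ, 2 * k ≤ n →
        2 * (finrank K L * n) + 2 * (finrank K L * k) ≤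
          finrank K L ^ 2 + finrank K L + 6 * k ^ 2 := by
  have h := bin_of_uInv hu
  have hb := bound K L h
  have hne : {n : ℕ | HasAnisotropic L 1 n}.Nonempty :=
    ⟨0, fun _ => 0, fun v _ => Subsingleton.elim _ _⟩
  have hd : 0 < finrank K L := finrank_pos
  have hbdd : BddAbove {n : ℕ | HasAnisotropic L 1 n} := by
    refine ⟨finrank K L ^ 2 + finrank K L, fun n hn => ?_⟩
    have h1 := hb n hn 0 (by omega)
    nlinarith
  have hmem := Nat.sSup_mem hne hbdd
  have hU : uInv L 1 = (sSup {n : ℕ | HasAnisotropic L 1 n} : ℕ) := by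
    unfold uInv
    apply le_antisymm
    · refine iSup₂_le fun n hn => ?_
      exact_mod_cast le_csSup hbdd hn
    · exact le_iSup₂_of_le _ hmem le_rfl
  have h1 := hb _ hmem
  set N := sSup {n : ℕ | HasAnisotropic L 1 n}
  refine ⟨fun h4 => ?_, N, hU, ?_, h1⟩
  · rw [hU, hu, mul_one]
    have h5 : 2 * N < finrank K L + 1 := by
      by_contra hcon
      push Not at hcon
      have h6 := h1 1 (by omega)
      have := Nat.mul_le_mul_left (finrank K L) hcon
      nlinarith
    exact_mod_cast h5
  · set d := finrank K L
    obtain ⟨k, r, hk, hr⟩ : ∃ k : ℕ, ∃ r : ℤ, (d : ℤ) = 6 * k + r ∧ (-3 ≤ r ∧ r ≤ 3) := by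
      refine ⟨(d + 3) / 6, (d : ℤ) - 6 * ((d + 3) / 6 : ℕ), by ring, ?_, ?_⟩ <;> omega
    rcases Nat.lt_or_ge N (2 * k) with h2 | h2
    · have h3 : 3 * N ≤ d := by omega
      nlinarith
    · have h3 := h1 k h2
      have h4 : r ^ 2 ≤ 9 := by nlinarith
      zify at h3 ⊢
      have h5 : (6 * (k : ℤ)) = d - r := by linarith
      nlinarith

end Pool.Agent.Results.MP_c32625_al.QuadraticallyClosedDegree
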